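import Pool.Agent.FUF.Topology

/-!
# Non-metrizable Frechet-Urysohn-for-finite-sets group topologies do not depend on the group

The existence of a non-metrizable group topology that is Frechet-Urysohn for finite sets is the
same for all countable topologizable groups, and is equivalent to the existence of a filter on `ℕ`
that is Frechet-Urysohn for finite sets and not countably generated.
-/

namespace Pool.Agent.Results.MP_5914e3_lc.FUFTransfer

open Filter Topology Set Pool.Agent.FUF

/-- Passage to a free filter on `ℕ`. -/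
theorem exists_free {X : Type*} [Countable X] {𝓕 : Filter X} (hFUF : FUFFilter 𝓕)
    (hcg : ¬ 𝓕.IsCountablyGenerated) :
    ∃ 𝓖 : Filter ℕ, FUFFilter 𝓖 ∧ ¬ 𝓖.IsCountablyGenerated ∧ ∀ n, {n}ᶜ ∈ 𝓖 := by
  classical
  obtain ⟨e, he⟩ := exists_injective_nat X
  have h0 : FUFFilter (𝓕 ⊓ 𝓟 𝓕.kerᶜ) := by
    intro 𝒮 h𝒮
    obtain ⟨a, ha, haU⟩ := hFUF {A | A ∈ 𝒮 ∧ (A : Set X) ⊆ 𝓕.kerᶜ} (by
      intro F hF
      obtain ⟨A, hA, hAF⟩ := h𝒮 (F ∩ 𝓕.kerᶜ) (inter_mem_inf hF (mem_principal_self _))
      exact ⟨A, ⟨hA, hAF.trans inter_subset_right⟩, hAF.trans inter_subset_left⟩)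
    refine ⟨a, fun n => (ha n).1, fun U hU => ?_⟩
    rw [mem_inf_principal] at hU
    filter_upwards [haU _ hU] with n hn
    intro x hx
    exact hn hx ((ha n).2 hx)
  refine ⟨(𝓕 ⊓ 𝓟 𝓕.kerᶜ).map e, h0.map he, fun h => hcg ?_, fun n => ?_⟩
  · have h1 : (𝓕 ⊓ 𝓟 𝓕.kerᶜ).IsCountablyGenerated := by
      rw [← Filter.comap_map he (f := 𝓕 ⊓ 𝓟 𝓕.kerᶜ)]
      infer_instance
    have h2 : 𝓕 = (𝓕 ⊓ 𝓟 𝓕.kerᶜ) ⊔ 𝓟 𝓕.ker := by
      ext U
      rw [mem_sup, mem_principal, mem_inf_principal]
      constructor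
      · intro hU
        exact ⟨mem_of_superset hU fun x hx _ => hx, fun x hx => mem_ker.1 hx U hU⟩
      · rintro ⟨h3, h4⟩
        filter_upwards [h3] with x hx
        by_cases hxk : x ∈ 𝓕.ker
        · exact h4 hxk
        · exact hx hxk
    rw [h2]
    infer_instance
  · rw [mem_map, mem_inf_principal]
    by_cases hn : ∃ x, e x = n ∧ x ∉ 𝓕.ker
    · obtain ⟨x, rfl, hx⟩ := hn
      rw [mem_ker] at hx
      push Not at hx
      obtain ⟨F, hF, hxF⟩ := hx
      filter_upwards [hF] with y hy _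
      intro hyx
      exact hxF (he hyx ▸ hy)
    · push Not at hn
      refine univ_mem' fun y hy => ?_
      intro hyn
      exact hy (hn y hyn)

theorem not_cg_of_not_metrizable {G : Type*} [Group G] [TopologicalSpace G] [IsTopologicalGroup G]
    [T2Space G] (h : ¬ TopologicalSpace.MetrizableSpace G) :
    ¬ (𝓝 (1 : G)).IsCountablyGenerated := by
  intro hcg
  apply h
  let _ := IsTopologicalGroup.rightUniformSpace G
  have : (uniformity G).IsCountablyGenerated := by
    rw [uniformity_eq_comap_nhds_one' G]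
    infer_instance
  infer_instance

/-- The following are equivalent. (1) There is a filter on `ℕ` that is Frechet-Urysohn for finite
sets and not countably generated. (2) Some countable group has a Hausdorff group topology that is
Frechet-Urysohn for finite sets and not metrizable. (3) For every non-discrete Hausdorff group
topology `τ` on a countable group `H` there is a Hausdorff group topology `σ` on `H` that is
Frechet-Urysohn for finite sets (in particular Frechet-Urysohn) and not metrizable, and `σ` can be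
taken finer than `τ` if `τ` is first countable. -/
theorem result : List.TFAE [
    ∃ 𝓕 : Filter ℕ, FUFFilter 𝓕 ∧ ¬ 𝓕.IsCountablyGenerated,
    ∃ (G : Type) (_ : Group G) (_ : Countable G) (_ : TopologicalSpace G),
      IsTopologicalGroup G ∧ T2Space G ∧ IsFUF G ∧ ¬ TopologicalSpace.MetrizableSpace G,
    ∀ (H : Type) (_ : Group H) (_ : Countable H) (τ : TopologicalSpace H),
      @IsTopologicalGroup H τ _ → @T2Space H τ → ¬ @DiscreteTopology H τ →
      ∃ σ : TopologicalSpace H, @IsTopologicalGroup H σ _ ∧ @T2Space H σ ∧ @IsFUF H σ ∧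
        @FrechetUrysohnSpace H σ ∧ ¬ @TopologicalSpace.MetrizableSpace H σ ∧
        (@FirstCountableTopology H τ → σ ≤ τ)] := by
  tfae_have 1 → 3 := by
    rintro ⟨𝓕, hF, hcg⟩ H _ _ τ hτ hT2 hnd
    obtain ⟨𝓖, h1, h2, h3⟩ := exists_free hF hcg
    obtain ⟨σ, s1, s2, s3, s4, s5⟩ := construct h1 h3 h2 H τ hτ hT2 hnd
    refine ⟨σ, s1, s2, s3, @IsFUF.frechetUrysohn H σ s3, ?_, s5⟩
    intro hm
    exact s4 inferInstance
  tfae_have 3 → 2 := by
    intro h
    have hc : Countable (Multiplicative ℚ) := inferInstanceAs (Countable ℚ)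
    obtain ⟨σ, s1, s2, s3, -, s5, -⟩ := h (Multiplicative ℚ) inferInstance hc
      inferInstance inferInstance inferInstance (by
        intro hd
        have h1 : IsOpen ({Multiplicative.ofAdd (0 : ℚ)} : Set (Multiplicative ℚ)) := isOpen_discrete _
        have h2 : IsOpen ({(0 : ℚ)} : Set ℚ) := h1
        exact not_isOpen_singleton (0 : ℚ) h2)
    exact ⟨Multiplicative ℚ, inferInstance, hc, σ, s1, s2, s3, s5⟩
  tfae_have 2 → 1 := by
    rintro ⟨G, _, _, _, h1, h2, h3, h4⟩
    obtain ⟨𝓖, g1, g2, -⟩ := exists_free (h3 1) (not_cg_of_not_metrizable h4)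
    exact ⟨𝓖, g1, g2⟩
  tfae_finish

end Pool.Agent.Results.MP_5914e3_lc.FUFTransfer
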