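import Pool.Agent.NMF.Free
import Pool.Agent.NMF.Central
import Pool.Agent.NMF.Vp
import Pool.Agent.NMF.Map

/-!
# Transfer of non-metrizable Frechet-Urysohn group topologies between countable groups

All statements are theorems of ZFC about the class of the countable groups that admit a
non-metrizable Frechet-Urysohn group topology.
-/

namespace Pool.Agent.Results.MP_5914e3_lc.SolvableTransfer

open Topology Set Pool.Agent.NFU

/-- The group `G` has a Hausdorff group topology that is Frechet-Urysohn and not metrizable. -/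
def Good (G : Type) [Group G] : Prop :=
  ∃ τ : TopologicalSpace G, @IsTopologicalGroup G τ _ ∧ @T2Space G τ ∧
    @FrechetUrysohnSpace G τ ∧ ¬ @TopologicalSpace.MetrizableSpace G τ

/-- The direct sum of countably many copies of `ℤ / p`, written multiplicatively. -/
abbrev V (p : ℕ) : Type := Multiplicative (ℕ →₀ ZMod p)

/-- The value `∏ g * x ^ ε * g⁻¹` of a word: a list of pairs `(g, ε)`, where `ε` is a sign. -/
def value {H : Type} [Group H] (x : H) (C : List (H × Bool)) : H :=
  (C.map fun c => c.1 * (if c.2 then x else x⁻¹) * c.1⁻¹).prod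

/-- The sum of the signs of a word. -/
def signSum {H : Type} (C : List (H × Bool)) : ℤ := (C.map fun c => if c.2 then 1 else -1).sum

/-- `H` has a Hausdorff group topology such that every neighbourhood of `1` contains, for every finite
set `F` and every `k`, an element `x` such that all relations `∏ g * x ^ ε * g⁻¹ = 1` of length at most
`k` with `g ∈ F` have a sum of signs divisible by `m`. -/
def IsGeneric (m : ℕ) (H : Type) [Group H] : Prop :=
  ∃ τ : TopologicalSpace H, @IsTopologicalGroup H τ _ ∧ @T2Space H τ ∧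
    ∀ U ∈ @nhds H τ 1, ∀ F : Set H, F.Finite → ∀ k : ℕ, ∃ x ∈ U, ∀ C : List (H × Bool),
      C.length ≤ k → (∀ c ∈ C, c.1 ∈ F) → value x C = 1 → (m : ℤ) ∣ signSum C

/-- `H` embeds in a compact Hausdorff group. -/
def IsMAP (H : Type) [Group H] : Prop :=
  ∃ (K : Type) (_ : Group K) (_ : TopologicalSpace K) (j : H →* K), IsTopologicalGroup K ∧
    CompactSpace K ∧ T2Space K ∧ Function.Injective j

theorem isGeneric_iff {m : ℕ} {H : Type} [Group H] : IsGeneric m H ↔ HasGeneric m H := Iff.rfl

theorem good_of_generic {m : ℕ} {A H : Type} [CommGroup A] [Countable A] (hA : Good A)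
    (hm : ∀ x : A, x ^ m = 1) [Group H] [Countable H] (h : IsGeneric m H) : Good H := by
  obtain ⟨τ, h1, h2, h3⟩ := h
  exact transfer_generic m hm hA τ h1 h2 h3

/-- The centre as a commutative group. -/
abbrev centerComm (H : Type) [Group H] : CommGroup (Subgroup.center H) :=
  { (inferInstance : Group (Subgroup.center H)) with
    mul_comm := fun a b => Subtype.ext (Subgroup.mem_center_iff.1 b.2 a.1) }

theorem vp_countable {p : ℕ} (hp : p.Prime) : Countable (V p) := by
  have : NeZero p := ⟨hp.ne_zero⟩
  have h1 : Countable (ZMod p) := inferInstance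
  exact inferInstanceAs (Countable (ℕ →₀ ZMod p))

theorem good_of_center {A H : Type} [CommGroup A] [Countable A] (hA : Good A) [Group H]
    (h : ¬ ∃ N : ℕ, 0 < N ∧ ∀ z ∈ Subgroup.center H, z ^ N = 1) : Good H := by
  let _ : CommGroup (Subgroup.center H) := centerComm H
  refine transfer_central (Z := Subgroup.center H) 0 (fun x => pow_zero x) hA
    (Subgroup.center H).subtype (Subgroup.subtype_injective _)
    (fun z x => Subgroup.mem_center_iff.1 z.2 x) (infinite_exponent ?_)
  rintro ⟨N, hN, hz⟩
  exact h ⟨N, hN, fun z hz' => congrArg Subtype.val (hz ⟨z, hz'⟩)⟩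

theorem good_of_torsion {p : ℕ} (hp : p.Prime) (hV : Good (V p)) {H : Type} [Group H]
    (h : {z : H | z ∈ Subgroup.center H ∧ z ^ p = 1}.Infinite) : Good H := by
  have hc : Countable (V p) := vp_countable hp
  let _ : CommGroup (Subgroup.center H) := centerComm H
  refine transfer_central (Z := Subgroup.center H) p (fun x => ?_) hV
    (Subgroup.center H).subtype (Subgroup.subtype_injective _)
    (fun z x => Subgroup.mem_center_iff.1 z.2 x) (infinite_torsion hp ?_)
  · show Multiplicative.ofAdd (p • Multiplicative.toAdd x) = 1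
    have h1 : p • Multiplicative.toAdd x = 0 := by
      ext n
      simp
    rw [h1]
    rfl
  · intro hfin
    apply h
    refine (hfin.image Subtype.val).subset ?_
    rintro z ⟨hz1, hz2⟩
    exact ⟨⟨z, hz1⟩, Subtype.ext hz2, rfl⟩

theorem vp_pow {p : ℕ} (x : V p) : x ^ p = 1 := by
  show Multiplicative.ofAdd (p • Multiplicative.toAdd x) = 1
  have h1 : p • Multiplicative.toAdd x = 0 := by
    ext n
    simp
  rw [h1]
  rfl

theorem vp_infinite {p : ℕ} (hp : p.Prime) : Infinite (V p) := by
  have : Fact (1 < p) := ⟨hp.one_lt⟩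
  exact inferInstanceAs (Infinite (ℕ →₀ ZMod p))

theorem center_comm {H : Type} [CommGroup H] (z : H) : z ∈ Subgroup.center H :=
  Subgroup.mem_center_iff.2 fun g => mul_comm g z

theorem not_bounded_int : ¬ ∃ N : ℕ, 0 < N ∧ ∀ z ∈ Subgroup.center (Multiplicative ℤ), z ^ N = 1 := by
  rintro ⟨N, hN, h⟩
  have h1 := h (Multiplicative.ofAdd 1) (center_comm _)
  have h2 : (N : ℤ) * 1 = 0 := by
    have h3 : Multiplicative.ofAdd ((N : ℕ) • (1 : ℤ)) = Multiplicative.ofAdd 0 := h1
    have h4 : (N : ℕ) • (1 : ℤ) = 0 := Multiplicative.ofAdd.injective h3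
    rwa [nsmul_eq_mul] at h4
  have h3 : (N : ℤ) = 0 := by linarith
  have h4 : N = 0 := by exact_mod_cast h3
  omega

/-- (1) Some countable group is good if and only if the free group of countable rank is.
(2) If some countable solvable group is good then so is every countable group with a centre of infinite
exponent, every countable group that embeds in a compact group and has an abelianization of infinite
exponent, and every countable generic group.
(3) If `V p` is good (`p` prime) then so is every countable group with infinitely many central elements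
`z` such that `z ^ p = 1`, every countable group that embeds in a compact group and has infinitely many
homomorphisms to `ℤ / p`, and every countable group that is generic modulo `p`.
(4) If a countable solvable group of finite exponent is good then `V p` is good for some prime `p`. A
countable abelian group of finite exponent is good if and only if for some prime `p` it has
infinitely many elements `z` with `z ^ p = 1` and `V p` is good.
(5) All infinite countable abelian groups behave in the same way if and only if the following holds: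
if `ℤ` is good then all groups `V p` are. -/
theorem result :
    ((∃ (G : Type) (_ : Group G), Countable G ∧ Good G) ↔ Good (FreeGroup ℕ)) ∧
    ((∃ (G : Type) (_ : Group G), Countable G ∧ Group.IsSolvable G ∧ Good G) →
      ∀ (H : Type) [Group H] [Countable H],
        ((¬ ∃ N : ℕ, 0 < N ∧ ∀ z ∈ Subgroup.center H, z ^ N = 1) ∨
          (IsMAP H ∧ ¬ ∃ N : ℕ, 0 < N ∧ ∀ x : H, x ^ N ∈ commutator H) ∨ IsGeneric 0 H) → Good H) ∧
    (∀ p : ℕ, p.Prime → Good (V p) → ∀ (H : Type) [Group H] [Countable H],
      ({z : H | z ∈ Subgroup.center H ∧ z ^ p = 1}.Infinite ∨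
        (IsMAP H ∧ Infinite (H →* Multiplicative (ZMod p))) ∨ IsGeneric p H) → Good H) ∧
    ((∃ (G : Type) (_ : Group G) (N : ℕ), Countable G ∧ Group.IsSolvable G ∧ 0 < N ∧
        (∀ x : G, x ^ N = 1) ∧ Good G) → ∃ p : ℕ, p.Prime ∧ Good (V p)) ∧
    (∀ (H : Type) [CommGroup H] [Countable H] (N : ℕ), 0 < N → (∀ x : H, x ^ N = 1) →
      (Good H ↔ ∃ p : ℕ, p.Prime ∧ {x : H | x ^ p = 1}.Infinite ∧ Good (V p))) ∧
    ((∀ (G H : Type) [CommGroup G] [CommGroup H] [Countable G] [Countable H] [Infinite G] [Infinite H],
        Good G ↔ Good H) ↔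
      (Good (Multiplicative ℤ) → ∀ p : ℕ, p.Prime → Good (V p))) := by
  have P1 : (∃ (G : Type) (_ : Group G), Countable G ∧ Good G) ↔ Good (FreeGroup ℕ) := by
    constructor
    · rintro ⟨G, _, _, hG⟩
      exact nmf_free hG
    · intro h
      exact ⟨FreeGroup ℕ, inferInstance, (FreeGroup.toWord_injective).countable, h⟩
  have P2 : (∃ (G : Type) (_ : Group G), Countable G ∧ Group.IsSolvable G ∧ Good G) →
      ∀ (H : Type) [Group H] [Countable H],
        ((¬ ∃ N : ℕ, 0 < N ∧ ∀ z ∈ Subgroup.center H, z ^ N = 1) ∨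
          (IsMAP H ∧ ¬ ∃ N : ℕ, 0 < N ∧ ∀ x : H, x ^ N ∈ commutator H) ∨ IsGeneric 0 H) → Good H := by
    rintro ⟨G, _, _, hs, hG⟩ H _ _ hH
    obtain ⟨A, _, _, -, hA⟩ := exists_comm hs hG 0 fun x => pow_zero x
    rcases hH with h | ⟨⟨K, _, _, j, h1, h2, h3, h4⟩, h⟩ | h
    · exact good_of_center hA h
    · exact good_of_generic hA (fun x => pow_zero x) (hasGeneric_of_compact j h4 h)
    · exact good_of_generic hA (fun x => pow_zero x) h
  have P3 : ∀ p : ℕ, p.Prime → Good (V p) → ∀ (H : Type) [Group H] [Countable H],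
      ({z : H | z ∈ Subgroup.center H ∧ z ^ p = 1}.Infinite ∨
        (IsMAP H ∧ Infinite (H →* Multiplicative (ZMod p))) ∨ IsGeneric p H) → Good H := by
    intro p hp hV H _ _ hH
    have hc : Countable (V p) := vp_countable hp
    rcases hH with h | ⟨⟨K, _, _, j, h1, h2, h3, h4⟩, h⟩ | h
    · exact good_of_torsion hp hV h
    · exact good_of_generic hV vp_pow (hasGeneric_of_homs j h4 hp h)
    · exact good_of_generic hV vp_pow h
  have P4' : (∃ (G : Type) (_ : Group G) (N : ℕ), Countable G ∧ Group.IsSolvable G ∧ 0 < N ∧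
        (∀ x : G, x ^ N = 1) ∧ Good G) → ∃ p : ℕ, p.Prime ∧ Good (V p) := by
    rintro ⟨G, _, N, _, hs, hN, hx, hG⟩
    obtain ⟨A, _, _, hA, hA'⟩ := exists_comm hs hG N hx
    obtain ⟨p, hp, -, h⟩ := nmf_bounded hN hA hA'
    exact ⟨p, hp, h⟩
  have P4 : ∀ (H : Type) [CommGroup H] [Countable H] (N : ℕ), 0 < N → (∀ x : H, x ^ N = 1) →
      (Good H ↔ ∃ p : ℕ, p.Prime ∧ {x : H | x ^ p = 1}.Infinite ∧ Good (V p)) := by
    intro H _ _ N hN hx
    constructor
    · intro h
      exact nmf_bounded hN hx h
    · rintro ⟨p, hp, h1, h2⟩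
      refine P3 p hp h2 H (Or.inl (h1.mono ?_))
      intro z hz
      exact ⟨center_comm z, hz⟩
  refine ⟨P1, P2, P3, P4', P4, ?_, ?_⟩
  · intro h hZ p hp
    have hc : Countable (V p) := vp_countable hp
    have hi : Infinite (V p) := vp_infinite hp
    have hc' : Countable (Multiplicative ℤ) := inferInstanceAs (Countable ℤ)
    have hi' : Infinite (Multiplicative ℤ) := inferInstanceAs (Infinite ℤ)
    exact (h (Multiplicative ℤ) (V p)).1 hZ
  · intro h
    have key : ∀ (G H : Type) [CommGroup G] [CommGroup H] [Countable G] [Countable H] [Infinite G]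
        [Infinite H], Good G → Good H := by
      intro G H _ _ _ _ _ _ hG
      have hs : ∃ (G : Type) (_ : Group G), Countable G ∧ Group.IsSolvable G ∧ Good G :=
        ⟨G, inferInstance, inferInstance, inferInstance, hG⟩
      by_cases hH : ∃ N : ℕ, 0 < N ∧ ∀ z ∈ Subgroup.center H, z ^ N = 1
      · obtain ⟨N, hN, hz⟩ := hH
        have hx : ∀ x : H, x ^ N = 1 := fun x => hz x (center_comm x)
        have hc' : Countable (Multiplicative ℤ) := inferInstanceAs (Countable ℤ)
        obtain ⟨p, hp, hp1⟩ := exists_prime_infinite N hN H hx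
        exact (P4 H N hN hx).2 ⟨p, hp, hp1, h (P2 hs (Multiplicative ℤ) (Or.inl not_bounded_int)) p hp⟩
      · exact P2 hs H (Or.inl hH)
    intro G H _ _ _ _ _ _
    exact ⟨key G H, key H G⟩

end Pool.Agent.Results.MP_5914e3_lc.SolvableTransfer
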